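import Pool.Agent.K1H74.Mot.Bridge

/-!
# Bloch-Beilinson filtrations and injectivity of Abel-Jacobi maps

`C` is the Chow theory with rational coefficients of a class `𝒱` of smooth projective varieties
(closed under products, over a field `k`), `H` a Weil cohomology theory and `N X j ⊆ CH^j(X)` the
kernels of the Abel-Jacobi maps; all the formal properties used are stated in the definitions.
`𝒲` is a family of varieties, for instance the family of all curves and surfaces.
-/

set_option autoImplicit false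

open CategoryTheory AlgebraicGeometry

universe u v w

namespace Pool.Agent.Results.MP_08891c_ag.AbelJacobiCriterion

open Pool.Agent.H914 Pool.Agent.H914.VarClass Pool.Agent.H914.VarClass.Obj Pool.Agent.W492.BB
  Pool.Agent.TH133 Pool.Agent.K1H74 Pool.Agent.K1H74.Mot

/-- **A Bloch-Beilinson filtration on the varieties built from curves, surfaces and sections exists
if and only if the Abel-Jacobi maps are injective on the cycles of codimension `j` of the parts of
weight `2 j - 1`.** If it exists it is unique, it is the filtration attached to any Chow-Kunneth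
decomposition, and it is compatible with intersection products. -/
theorem result {k : Type u} [Field k] {𝒱 : VarClass k} {C : TheoryData.{u, v, 0} 𝒱 ℚ}
    [IsChowProj C] {K : Type w} [Field K] {H : WeilTheoryData.{u, v, w} C K} [IsWeilProj H]
    {N : Kers C} (hN : IsAbelJacobiKernel H N) (hF : FibreProperty C)
    {𝒲 : 𝒱.Obj → Prop} (h𝒲 : Generated 𝒲 H) :
    -- the criterion;
    ((∃ F : Steps C, IsBlochBeilinsonOn H N (BuiltFrom 𝒲 H ⊤) F) ↔
      ∀ j : ℕ, 2 ≤ j → AJInjective 𝒲 H N j) ∧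
    -- the criterion for bounded weights;
    (∀ d : ℕ∞, (∀ j : ℕ, 2 ≤ j → j ≤ d → AJInjective 𝒲 H N j) →
      ∃ F : Steps C, IsBlochBeilinsonOn H N (BuiltFrom 𝒲 H d) F) ∧
    (∀ (d : ℕ∞) (F : Steps C), IsBlochBeilinsonOn H N (BuiltFrom 𝒲 H d) F →
      (∀ j : ℕ, 2 ≤ j → (2 * j - 1 : ℕ) ≤ d → AJInjective 𝒲 H N j) ∧
      -- uniqueness;
      (∀ F' : Steps C, IsBlochBeilinsonOn H N (BuiltFrom 𝒲 H d) F' → ∀ X, BuiltFrom 𝒲 H d X →
        F' X = F X) ∧
      -- comparison with Chow-Kunneth decompositions;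
      (∀ (X : 𝒱.Obj) (π : ℕ → C.A (X.prod X)), BuiltFrom 𝒲 H d X → CKDec H X π →
        ∀ (j ν : ℕ) (z : C.A X), In (F X j ν) z ↔
          C.Deg j z ∧ ∀ m, 2 * j < m + ν → Null (C.act (π m) z)) ∧
      -- the filtration of a part `(P, p)` of weight `n`: it jumps only at `2 j - n`;
      (∀ (n : ℕ) (P : 𝒱.Obj) (p : C.A (P.prod P)), IsPart 𝒲 H n P p → n ≤ d →
        ∀ (j ν : ℕ) (z : C.A P), C.Deg j z → C.act p z = z →
          (In (F P j ν) z ↔ Null z ∨ n + ν ≤ 2 * j))) ∧
    -- compatibility with intersection products;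
    (∀ F : Steps C,
      IsBlochBeilinsonOn H N (BuiltFrom 𝒲 H ⊤) F → ∀ X, BuiltFrom 𝒲 H ⊤ X →
      ∀ (j j' ν ν' : ℕ) (z z' : C.A X), In (F X j ν) z → In (F X j' ν') z' →
        In (F X (j + j') (ν + ν')) (C.mul z z')) ∧
    -- the class of varieties: it is closed under products and under direct summands of twists of
    -- motives, and it contains the curves in `𝒲`, the surfaces in `𝒲` with a transcendental
    -- projector, and the varieties with a factor `r` such that `Δ - r` is decomposable.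
    (∀ (d d' : ℕ∞) (X Y : 𝒱.Obj), BuiltFrom 𝒲 H d X → BuiltFrom 𝒲 H d' Y →
        BuiltFrom 𝒲 H (d + d') (X.prod Y)) ∧
    (∀ (d : ℕ∞) (X Y : 𝒱.Obj) (b : ℕ) (f : C.A (X.prod Y)) (g : C.A (Y.prod X)),
        C.Deg (X.dim - b) f → C.Deg (Y.dim + b) g → cmp f g = diag C X →
        BuiltFrom 𝒲 H d Y → BuiltFrom 𝒲 H d X) ∧
    (∀ T : 𝒱.Obj, 𝒲 T → T.dim = 1 → BuiltFrom 𝒲 H T.dim T) ∧
    (∀ (S : 𝒱.Obj) (q : C.A (S.prod S)), 𝒲 S → IsTranscendental 𝒲 H S q →
        BuiltFrom 𝒲 H S.dim S) ∧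
    (∀ (n : ℕ) (W : 𝒱.Obj) (r : C.A (W.prod W)), IsFactor 𝒲 H n W r →
        Comb Split (diff (diag C W) r) → BuiltFrom 𝒲 H W.dim W) := by
  rw [kernel_iff] at hN
  rw [fibre_iff] at hF
  rw [generated_iff] at h𝒲
  simp only [bb_iff, built_eq, aj_iff, part_iff]
  refine ⟨⟨?_, ?_⟩, fun d h => ⟨BB.fil 𝒲 H d, BB.exists_bb hN hF h⟩, fun d F h =>
    ⟨fun j hj hjd => BB.aj_of_bb h𝒲 h hj hjd, ?_, ?_, ?_⟩,
    fun F h X hX j j' ν ν' z z' hz hz' => BB.mul_mem h𝒲 (BB.weak_of_bb h) hX hz hz',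
    fun d d' X Y hX hY => BB.built_prod hX hY,
    fun d X Y b f g hf hg h hY => BB.built_summand hf hg h hY,
    fun T hT hd => BB.dec_curve hT hd,
    fun S q hS hq => BB.dec_surface hS (trans_iff.1 hq),
    fun n W r hr h => BB.built_of_factor (factor_of hr) h⟩
  · rintro ⟨F, h⟩ j hj
    exact BB.aj_of_bb h𝒲 h hj le_top
  · intro h
    exact ⟨BB.fil 𝒲 H ⊤, BB.exists_bb hN hF fun j hj _ => h j hj⟩
  · intro F' h' X hX
    funext j ν
    rw [BB.eq_fil h𝒲 (BB.weak_of_bb h) hX, BB.eq_fil h𝒲 (BB.weak_of_bb h') hX]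
  · intro X π hX hπ j ν z
    rw [ck_iff] at hπ
    rw [BB.eq_ckFil (BB.weak_of_bb h) hX hπ j ν]
    change z ∈ ckFil C π j ν ↔ _
    rw [hπ.mem_ckFil]
    constructor
    · rintro ⟨h1, h2⟩
      exact ⟨h1, fun m hm => h2 m (by omega)⟩
    · rintro ⟨h1, h2⟩
      exact ⟨h1, fun m hm => h2 m (by omega)⟩
  · intro n P p hP hn j ν z hz hpz
    have hB := hP.built h𝒲 hn
    have h1 := BB.F_part (i := j) (BB.weak_of_bb h) hP.piece hB hpz
    constructor
    · intro h2
      by_cases h3 : n + ν ≤ 2 * j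
      · exact Or.inr h3
      · exact Or.inl (h1.1 ν (by omega) h2)
    · rintro (h2 | h2)
      · have h3 : z = 0 := h2
        rw [h3]
        exact Submodule.zero_mem _
      · exact h1.2 ν h2 hz

end Pool.Agent.Results.MP_08891c_ag.AbelJacobiCriterion
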