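import Pool.Agent.K1H74.Mot.Bridge

/-!
# Bloch-Beilinson filtrations in the form of Jannsen and injectivity of cycle class maps

`C` is the Chow theory with rational coefficients of a class `𝒱` of smooth projective varieties
(closed under products, over a field `k`) and `H` a Weil cohomology theory; all the formal
properties used are stated in the definitions. `𝒲` is a family of varieties, for instance the family
of all curves and surfaces. The filtrations considered have all the properties of a Bloch-Beilinson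
filtration except possibly that `F^2` is the kernel of the Abel-Jacobi map.
-/

set_option autoImplicit false

open CategoryTheory AlgebraicGeometry

universe u v w

namespace Pool.Agent.Results.MP_08891c_ag.CycleClassCriterion

open Pool.Agent.H914 Pool.Agent.H914.VarClass Pool.Agent.H914.VarClass.Obj Pool.Agent.W492.BB
  Pool.Agent.TH133 Pool.Agent.K1H74 Pool.Agent.K1H74.Mot

/-- **A filtration satisfying all the conditions except possibly `F^2 = ker AJ`, on the varieties
built from curves, surfaces and sections, exists if and only if the cycle class maps are injective on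
the cycles of codimension `j` of the parts of weight `2 j`.** If it exists it is unique, it is
attached to any Chow-Kunneth decomposition, compatible with intersection products, and `F^2` is
contained in the kernel of the Abel-Jacobi map. -/
theorem result {k : Type u} [Field k] {𝒱 : VarClass k} {C : TheoryData.{u, v, 0} 𝒱 ℚ}
    [IsChowProj C] {K : Type w} [Field K] {H : WeilTheoryData.{u, v, w} C K} [IsWeilProj H]
    (hF : FibreProperty C) {𝒲 : 𝒱.Obj → Prop} (h𝒲 : Generated 𝒲 H) :
    -- the criterion;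
    ((∃ F : Steps C, IsWeakOn H (BuiltFrom 𝒲 H ⊤) F) ↔ ∀ j : ℕ, ClassInjective 𝒲 H j) ∧
    -- the criterion for bounded weights;
    (∀ d : ℕ∞, (∀ j : ℕ, j ≤ d → ClassInjective 𝒲 H j) →
      ∃ F : Steps C, IsWeakOn H (BuiltFrom 𝒲 H d) F) ∧
    (∀ (d : ℕ∞) (F : Steps C), IsWeakOn H (BuiltFrom 𝒲 H d) F →
      (∀ j : ℕ, (2 * j : ℕ) ≤ d → ClassInjective 𝒲 H j) ∧
      -- uniqueness;
      (∀ F' : Steps C, IsWeakOn H (BuiltFrom 𝒲 H d) F' → ∀ X, BuiltFrom 𝒲 H d X →
        F' X = F X) ∧
      -- comparison with Chow-Kunneth decompositions;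
      (∀ (X : 𝒱.Obj) (π : ℕ → C.A (X.prod X)), BuiltFrom 𝒲 H d X → CKDec H X π →
        ∀ (j ν : ℕ) (z : C.A X), In (F X j ν) z ↔
          C.Deg j z ∧ ∀ m, 2 * j < m + ν → Null (C.act (π m) z)) ∧
      -- comparison with the kernels `N` of the Abel-Jacobi maps;
      (∀ N : Kers C, IsAbelJacobiKernel H N → ∀ (X : 𝒱.Obj) (j : ℕ), BuiltFrom 𝒲 H d X →
        ∀ z, In (F X j 2) z → In (N X j) z)) ∧
    -- compatibility with intersection products.
    (∀ F : Steps C, IsWeakOn H (BuiltFrom 𝒲 H ⊤) F → ∀ X, BuiltFrom 𝒲 H ⊤ X →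
      ∀ (j j' ν ν' : ℕ) (z z' : C.A X), In (F X j ν) z → In (F X j' ν') z' →
        In (F X (j + j') (ν + ν')) (C.mul z z')) := by
  rw [fibre_iff] at hF
  rw [generated_iff] at h𝒲
  simp only [weak_iff, built_eq, class_iff, kernel_iff]
  have hweak : ∀ d : ℕ∞, (∀ j : ℕ, j ≤ d → BB.ClassInjective 𝒲 H j) →
      ∃ F : Steps C, BB.IsWeakOn H (BB.BuiltFrom 𝒲 H d) F := fun d h =>
    ⟨BB.fil 𝒲 H d, BB.exists_weak fun e he => BB.claims_of hF (fun j hj _ => h j hj) e he⟩
  refine ⟨⟨?_, ?_⟩, hweak, fun d F h => ⟨fun j hjd => BB.class_of_weak h𝒲 h hjd, ?_, ?_, ?_⟩,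
      fun F h X hX j j' ν ν' z z' hz hz' => BB.mul_mem h𝒲 h hX hz hz'⟩
  · rintro ⟨F, h⟩ j
    exact BB.class_of_weak h𝒲 h le_top
  · intro h
    exact hweak ⊤ fun j _ => h j
  · intro F' h' X hX
    funext j ν
    rw [BB.eq_fil h𝒲 h hX, BB.eq_fil h𝒲 h' hX]
  · intro X π hX hπ j ν z
    rw [ck_iff] at hπ
    rw [BB.eq_ckFil h hX hπ j ν]
    change z ∈ ckFil C π j ν ↔ _
    rw [hπ.mem_ckFil]
    constructor
    · rintro ⟨h1, h2⟩
      exact ⟨h1, fun m hm => h2 m (by omega)⟩
    · rintro ⟨h1, h2⟩
      exact ⟨h1, fun m hm => h2 m (by omega)⟩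
  · intro N hN X j hX z hz
    have hz' : z ∈ F X j 2 := hz
    rw [BB.eq_fil h𝒲 h hX] at hz'
    exact BB.fil_two_le hN hX hz'

end Pool.Agent.Results.MP_08891c_ag.CycleClassCriterion
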