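import Pool.Agent.K1H74.LG.Main

/-!
# Bloch-Beilinson filtrations: the local-global principle

`C` is the Chow theory with rational coefficients of a class `𝒱` of smooth projective varieties
(closed under products, over a field `k`), `H` a Weil cohomology theory and `N X j ⊆ CH^j(X)` the
kernels of the Abel-Jacobi maps; all the formal properties used are stated in the definitions.
-/

set_option autoImplicit false

open CategoryTheory AlgebraicGeometry

universe u v w

namespace Pool.Agent.Results.MP_08891c_ag.LocalGlobal

open Pool.Agent.H914 Pool.Agent.H914.VarClass Pool.Agent.H914.VarClass.Obj Pool.Agent.W492.BB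
  Pool.Agent.TH133 Pool.Agent.K1H74 Pool.Agent.K1H74.Mot Pool.Agent.K1H74.LG

/-- **Local-global principle for Bloch-Beilinson filtrations.** A Bloch-Beilinson filtration for
all varieties simultaneously exists if and only if, for each single variety `W`, there is one on the
Chow groups of `W` with respect to the self-correspondences of `W` (of any degrees); and this holds if
and only if certain finite compositions of self-correspondences of `W` vanish on the kernels of the
Abel-Jacobi maps of `W`. -/
theorem result {k : Type u} [Field k] {𝒱 : VarClass k} {C : TheoryData.{u, v, 0} 𝒱 ℚ}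
    [IsChowProj C] {K : Type w} [Field K] {H : WeilTheoryData.{u, v, w} C K} [IsWeilProj H]
    {N : Kers C} (hN : IsAbelJacobiKernel H N) :
    -- the local-global principle for all varieties;
    ((∃ F : Steps C, IsBlochBeilinsonOn H N (fun _ => True) F) ↔
      ∀ W : 𝒱.Obj, ∃ F : Steps C, IsBlochBeilinsonOn H N (fun X => X = W) F) ∧
    -- the same for every class `S` of varieties such that any two members are direct summands of a
    -- third one, and for the class of the direct summands of its members;
    (∀ S : 𝒱.Obj → Prop,
      (∀ X Y, S X → S Y → ∃ W, S W ∧ Retract C X W ∧ Retract C Y W) →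
      ((∃ F : Steps C, IsBlochBeilinsonOn H N (fun X => ∃ W, S W ∧ Retract C X W) F) ↔
        ∀ W, S W → ∃ F : Steps C, IsBlochBeilinsonOn H N (fun X => X = W) F)) ∧
    -- the criterion in terms of chains of correspondences, for every class `S`, such as the class
    -- consisting of one variety.
    (∀ S : 𝒱.Obj → Prop, (∃ F : Steps C, IsBlochBeilinsonOn H N S F) ↔
      ∀ (X : 𝒱.Obj) (j : ℕ) (z : C.A X), 2 ≤ j → Chain H N S j (j + 1) X z → Null z) := by
  refine ⟨?_, ?_, ?_⟩
  · constructor
    · rintro ⟨F, hF⟩ W
      exact ⟨F, restrict hF fun _ _ => trivial⟩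
    · intro h
      refine ⟨gen H N _, local_global (S' := fun _ => True) hN ?_
        (fun X _ => ⟨X, trivial, Retract.refl X⟩) fun W _ => h W⟩
      intro X Y _ _
      exact ⟨X.prod Y, trivial, retract_fst X Y, retract_snd X Y⟩
  · intro S hS
    constructor
    · rintro ⟨F, hF⟩ W hW
      refine ⟨F, restrict hF ?_⟩
      rintro X rfl
      exact ⟨X, hW, Retract.refl X⟩
    · intro h
      exact ⟨gen H N _, local_global hN hS (fun X hX => hX) h⟩
  · intro S
    constructor
    · rintro ⟨F, hF⟩ X j z _ hz
      exact chain_of_bb hF X j z hz
    · intro h
      exact ⟨gen H N S, bb_of_chain hN h⟩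

end Pool.Agent.Results.MP_08891c_ag.LocalGlobal
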