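import Pool.Agent.K1H14.BB.Filt

/-!
# A weak Bloch-Beilinson filtration for the varieties dominated by powers of elliptic curves with
complex multiplication
-/

open CategoryTheory AlgebraicGeometry

universe u v w

namespace Pool.Agent.Results.MP_08891c_ag.WeakFiltrationCMPowers

open Pool.Agent.H914 Pool.Agent.H914.VarClass Pool.Agent.H914.VarClass.Obj Pool.Agent.W492.BB
  Pool.Agent.W550.Corr Pool.Agent.TH133 Pool.Agent.Y152.AS Pool.Agent.R904.CM Pool.Agent.K1H14.BB

/-- Let `C` be the Chow groups with rational coefficients of a class of smooth projective varieties
over a field, and let `H` be a Weil cohomology theory. Let `P` be a class of varieties with the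
property that any `N` homologically trivial correspondences, of any degrees, between varieties in
`P` have composition zero. For instance `P` may consist of the varieties of dimension zero, with
`N = 1`, or of all curves, with `N = 3`. Let `E_1, …, E_r` be elliptic curves with complex
multiplication, let `n_1, …, n_r ≥ 1`, and let `Q` be the class of the varieties
`E_r ^ i_r × ⋯ × E_1 ^ i_1 × Y` with `i_s ≤ n_s` and `Y` in `P`. Put
`L = (2 n_1 + 1) ⋯ (2 n_r + 1) N`. Then any `L` homologically trivial correspondences, of any
degrees, between varieties dominated by `Q` have composition zero. Moreover there is a filtration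
`F` on the Chow groups of all the varieties dominated by `Q` which is compatible with all
correspondences between them, such that `F^1` is homological equivalence, `F^L = 0`, and
homologically trivial correspondences map `F^ν` to `F^(ν+1)`.

In particular (`r = 1`, and `P` the varieties of dimension zero) for a single elliptic curve with
complex multiplication `E` this holds for the varieties dominated by the powers `E ^ i` with
`i ≤ n`, and `L = 2 n + 1`. -/
theorem result {k : Type u} [Field k] {𝒱 : VarClass k} (C : TheoryData.{u, v, 0} 𝒱 ℚ)
    [IsChowProj C] {K : Type w} [Field K] (H : WeilTheoryData.{u, v, w} C K) [IsWeilProj H]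
    (P Q : 𝒱.Obj → Prop) (N m : ℕ)
    (hP : (P = fun X => X.dim = 0) ∧ N = 1 ∨
      PicardOfProducts H ∧ (P = fun X => X.dim = 1) ∧ N = 3 ∨ HasIndex H P N)
    (hQ : CMProducts C P m Q) :
    HasIndex H (Dominated C Q) (m * N) ∧ ∃ F, IsWeakBB H (Dominated C Q) (m * N) F := by
  have hP' : HasIndex H P N := by
    rcases hP with ⟨rfl, rfl⟩ | ⟨hpic, rfl, rfl⟩ | h
    · exact hasIndex_points
    · exact hasIndex_curves hpic
    · exact h
  have h := (hP'.products hQ).dominated
  exact ⟨h, exists_weakBB h⟩

end Pool.Agent.Results.MP_08891c_ag.WeakFiltrationCMPowers
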